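import Pool.Agent.N65.TU.Arr
import Pool.Agent.TH577.UA.Smooth
import Pool.Agent.TH577.UA.Dom
set_option autoImplicit false

/-!
Beilinson's conjecture on regulators in weight `dim X + 1`, for `i = dim X`: hypersurfaces
`λ g ∏_e L_e ^ (w_e + 1) = 1`, where the `L_e` are *arbitrary* different affine forms with integral
coefficients over a number field (for instance over `ℚ`), and `g` is an arbitrary polynomial with
integral coefficients without zeros at the vertices of the arrangement: unramified classes in Milnor
K-theory with linearly independent regulators, one for each basis of the arrangement without broken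
circuits and of internal activity zero, for all large and sufficiently divisible integers `λ`.
Neither unimodularity nor general position of the arrangement is assumed.
-/

namespace Pool.Agent.Results.MP_a09a03_nt.ArbitraryArrangements

open Pool.Agent.TH826.MK (KQ symb Unramified Torus)

open Pool.Agent.TH826.GA (cm vtx)

open Pool.Agent.TH577.UA (Distinct Ix ARing aeqn acst aent exists_tori exists_smooth isDomain_ARing)

open Pool.Agent.N65.TU (Del Bex)

/-- Let `1 ≤ n`, let `σ` be a complex embedding of the number field `K`, and let
`L_e = ∑_j c_{e,j} x_j - a_e`, `0 ≤ e ≤ m`, be affine forms in `n + 1` variables with integral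
coefficients in `K`, such that no form is a multiple of another one and some determinant
`det (c_{T_i,j})` of `n + 1` of the forms is not zero. Let `Δ = Del c` be the product of all nonzero
determinants `det (c_{T_i,j})`, `T = (T_0, ..., T_n)`. Let `w_e ≥ 0` be integers and let `g` be a
polynomial with integral coefficients which does not vanish at the vertices of the arrangement (the
common zeros of `n + 1` forms with nonzero determinant), and let
`B = (2 m + 3) (deg g + ∑_e (w_e + 1)) + 1`. There is a constant `C` such that for all algebraic
integers `μ` of `K` and `λ = μ Δ ^ B` with `|σ λ| ≥ C` the following holds for the coordinate ring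
`A` of the hypersurface `λ g ∏_e L_e ^ (w_e + 1) = 1`.

If `g = 1`, the hypersurface is smooth (the gradient does not vanish at the complex points over
`σ`), and if moreover `w_e = 0` for a nonconstant form `L_e`, the ring `A` is a domain.

For all `T = (T_0, ..., T_n)` with nonzero determinant the symbol `{u_0, ..., u_n}`,
`u_i = κ_i L_{T_i} / L_{h_i}`, where `h_i` is the largest index such that the determinant of `T` with
`T_i` replaced by `h_i` is not zero and `κ_i` is the quotient of this determinant and of the one of
`T`, has unramified images in the Milnor K-theory of all fields `L` with a homomorphism `A → L`.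

There are tori `Γ_T` of dimension `n` in the complex points (over `σ`) of the hypersurface, such that
the determinant of the regulators of the symbols of the `T'` on the tori `Γ_T` does not vanish; here
`T` and `T'` run through the set `Ix` of all `T_0 < ... < T_n` with nonzero determinant such that
every `T_i` can be replaced by a later form (with nonzero determinant), and every other form which
vanishes at the vertex of `T` can replace a later form `T_i`. -/
theorem result.{u, v} (n : ℕ) (hn : 1 ≤ n) (m : ℕ) (K : Type u) [Field K] [NumberField K]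
    (σ : K →+* ℂ) (c : Fin (m + 1) → Fin (n + 1) → K) (a : Fin (m + 1) → K)
    (hc : ∀ e j, IsIntegral ℤ (c e j)) (ha : ∀ e, IsIntegral ℤ (a e)) (hD : Distinct c a)
    (hR : ∃ T : Fin (n + 1) → Fin (m + 1), (cm c T).det ≠ 0) (w : Fin (m + 1) → ℕ)
    (g : MvPolynomial (Fin (n + 1)) K) (hg : ∀ k, IsIntegral ℤ (g.coeff k))
    (hv : ∀ T : Fin (n + 1) → Fin (m + 1), (cm c T).det ≠ 0 →
      MvPolynomial.eval (vtx c a T) g ≠ 0) :
    ∃ C : ℝ, ∀ mu lam : K, IsIntegral ℤ mu → lam = mu * Del c ^ Bex g w → C ≤ ‖σ lam‖ →
      (g = 1 →
        (∀ x : Fin (n + 1) → ℂ, MvPolynomial.eval₂ σ x (aeqn lam g w c a) = 0 →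
          ∃ j, MvPolynomial.eval₂ σ x (MvPolynomial.pderiv j (aeqn lam g w c a)) ≠ 0) ∧
        ((∃ e, w e = 0 ∧ ∃ j, c e j ≠ 0) → IsDomain (ARing lam g w c a))) ∧
      (∀ (L : Type v) [Field L] (f : ARing lam g w c a →+* L) (T : Fin (n + 1) → Fin (m + 1)),
        (cm c T).det ≠ 0 →
          KQ.map (n + 1) f (symb (aent lam g w c a T)) ∈ Unramified L (n + 1)) ∧
      ∃ Γ : Ix c a → Torus (ARing lam g w c a) n,
        (∀ T θ (x : K), (Γ T).e θ (acst lam g w c a x) = σ x) ∧
        (Matrix.of fun T T' : Ix c a =>
          (Γ T).reg (symb (aent lam g w c a T'.1))).det ≠ 0 := by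
  obtain ⟨d, rfl⟩ : ∃ d, n = d + 1 := ⟨n - 1, by omega⟩
  obtain ⟨c1, hc1, h⟩ := exists_tori (g := g) (w := w) σ hD hv
  obtain ⟨c2, h2⟩ := exists_smooth (a := a) σ hR w
  refine ⟨max c1 c2, fun mu lam hmu hlam hl => ?_⟩
  have hl1 : c1 ≤ ‖σ lam‖ := (le_max_left _ _).trans hl
  have hl0 : lam ≠ 0 := by
    intro h0
    rw [h0, map_zero, norm_zero] at hl1
    linarith
  refine ⟨fun hg1 => ?_, fun L _ f T hT =>
    Pool.Agent.N65.TU.symb_mem_unramified hlam f hmu hg hc ha hT, h lam hl1⟩
  subst hg1
  exact ⟨h2 lam ((le_max_right _ _).trans hl), fun ⟨e, he1, he2⟩ =>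
    isDomain_ARing hR hD he2 he1 hl0⟩

end Pool.Agent.Results.MP_a09a03_nt.ArbitraryArrangements
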