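import Pool.Agent.N686.DI.Main
import Pool.Agent.N686.DI.Int2
set_option autoImplicit false

/-!
Beilinson's regulator conjecture (`K_2`) for the curves `λ P(x) Q(y) = 1`,
where `P` and `Q` are products of different linear factors: genus many independent classes in
integral `K_2`, when all critical values `λ P(ξ) Q(η)` (`P'(ξ) = 0`, `Q'(η) = 0`) have absolute value
larger than `1`. So the curve is the fibre over `1` of the function `λ P(x) Q(y)`, which has no
critical value except `0` in the closed unit disc. There is no hypothesis about the distances of the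
roots. For rational integers `λ` and different rational integers as roots the hypothesis holds for
all but finitely many curves (up to translations of `x` and of `y`), and always if `λ ≠ 0` and `P`
and `Q` have at least five roots.
-/

namespace Pool.Agent.Results.MP_a09a03_nt.CriticalProduct

open Polynomial

open Pool.Agent.TH826.MK (KQ symb Unramified Torus)

open Pool.Agent.TH826.MH

/-- The conclusions for the curve `λ P(x) Q(y) = 1`, where `P` is the product of the
`x - a_{0,i}`, `0 ≤ i ≤ r_0`, and `Q` the product of the `y - a_{1,j}`, `0 ≤ j ≤ r_1`, over the field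
`K` with the complex embedding `σ`: the coordinate ring of the curve is a domain; the curve is smooth
at its complex points over `σ`; the `r_0 r_1` symbols
`{(x - a_{0,i}) / (x - a_{0,i+1}), (y - a_{1,j}) / (y - a_{1,j+1})}` are unramified at all discrete
valuations of the function field; and there are `r_0 r_1` loops in the complex points over `σ` such
that the determinant of the regulators of the symbols on the loops does not vanish. The genus of the
curve is `r_0 r_1`. -/
def GenusManyClasses.{u, v} {r : Fin 2 → ℕ} {K : Type u} [Field K] (σ : K →+* ℂ) (lam : K)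
    (a : ∀ k, Fin (r k + 1) → K) : Prop :=
  IsDomain (CRing lam a) ∧
  (∀ x : Fin 2 → ℂ, MvPolynomial.eval₂ σ x (eqn lam a) = 0 →
    ∃ k, MvPolynomial.eval₂ σ x (MvPolynomial.pderiv k (eqn lam a)) ≠ 0) ∧
  (∀ (L : Type v) [Field L] [Algebra (CRing lam a) L] [IsFractionRing (CRing lam a) L],
    ∀ i : (∀ k, Fin (r k)),
      KQ.map 2 (algebraMap (CRing lam a) L) (symb (ent lam a i)) ∈ Unramified L 2) ∧
  ∃ Γ : (∀ k, Fin (r k)) → Torus (CRing lam a) 1,
    (∀ t θ (x : K), (Γ t).e θ (fpol lam a (MvPolynomial.C x)) = σ x) ∧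
    (Matrix.of fun t i : (∀ k, Fin (r k)) => (Γ t).reg (symb (ent lam a i))).det ≠ 0

theorem criterion.{u, v} (r : Fin 2 → ℕ) (K : Type u) [Field K] [NumberField K] (σ : K →+* ℂ)
    (lam : K) (a : ∀ k, Fin (r k + 1) → K) (hl0 : lam ≠ 0) (hlam : IsIntegral ℤ lam)
    (ha : ∀ k i, IsIntegral ℤ (a k i)) (hinj : ∀ k, Function.Injective (a k))
    (hcrit : ∀ ξ η : ℂ, (derivative (∏ i, (X - C (σ (a 0 i))))).eval ξ = 0 →
      (derivative (∏ j, (X - C (σ (a 1 j))))).eval η = 0 →
      1 < ‖σ lam * (∏ i, (ξ - σ (a 0 i))) * ∏ j, (η - σ (a 1 j))‖) :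
    GenusManyClasses.{u, v} σ lam a :=
  ⟨isDomain_CRing lam a hl0 hinj, Pool.Agent.N686.DI.smooth σ a hcrit,
    fun L _ _ _ i => symb_mem_unramified (algebraMap (CRing lam a) L) hlam ha i,
    Pool.Agent.N686.DI.exists_tori hl0 hinj hcrit⟩

/-- *Number fields.* Let `K` be a number field, `σ` a complex embedding of `K`, `λ ≠ 0` and `a_{k,i}`
(`k = 0, 1`, `0 ≤ i ≤ r_k`) algebraic integers of `K`, `a_{k,i} ≠ a_{k,j}` for `i ≠ j`, and
`P = ∏_i (x - a_{0,i})`, `Q = ∏_j (y - a_{1,j})`. Suppose that `|σ λ P(ξ) Q(η)| > 1` for all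
complex zeros `ξ` of the derivative of `P` and `η` of the derivative of `Q` (at `σ`). Then
`GenusManyClasses` holds for the curve `λ P(x) Q(y) = 1`.

*Rational integers.* Let `m` and `b_{k,i}` (`k = 0, 1`, `0 ≤ i ≤ r_k`) be rational integers,
`b_{k,i} ≠ b_{k,j}` for `i ≠ j`. Suppose that `|m| |b_{0,i} - b_{0,j}| |b_{1,i'} - b_{1,j'}| > 64`
for some `i`, `j`, `i'`, `j'`, or that `m ≠ 0` and `r_0, r_1 ≥ 4`. Then `GenusManyClasses` holds for
the curve `m ∏_i (x - b_{0,i}) ∏_j (y - b_{1,j}) = 1` over `ℚ`. -/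
theorem result.{u, v} (r : Fin 2 → ℕ) :
    (∀ (K : Type u) [Field K] [NumberField K] (σ : K →+* ℂ) (lam : K)
      (a : ∀ k, Fin (r k + 1) → K), lam ≠ 0 → IsIntegral ℤ lam → (∀ k i, IsIntegral ℤ (a k i)) →
      (∀ k, Function.Injective (a k)) →
      (∀ ξ η : ℂ, (derivative (∏ i, (X - C (σ (a 0 i))))).eval ξ = 0 →
        (derivative (∏ j, (X - C (σ (a 1 j))))).eval η = 0 →
        1 < ‖σ lam * (∏ i, (ξ - σ (a 0 i))) * ∏ j, (η - σ (a 1 j))‖) →
      GenusManyClasses.{u, v} σ lam a) ∧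
    ∀ (m : ℤ) (b : ∀ k, Fin (r k + 1) → ℤ), (∀ k, Function.Injective (b k)) →
      ((∃ i j i' j', 64 < |m| * |b 0 i - b 0 j| * |b 1 i' - b 1 j'|) ∨
        (m ≠ 0 ∧ ∀ k, 4 ≤ r k)) → ∀ σ : ℚ →+* ℂ,
      GenusManyClasses.{0, v} σ (m : ℚ) fun k i => (b k i : ℚ) := by
  refine ⟨fun K _ _ σ lam a => criterion.{u, v} r K σ lam a,
    fun m b hb h σ => ?_⟩
  have hm0 : m ≠ 0 := by
    rcases h with ⟨i, j, i', j', h⟩ | h
    · rintro rfl
      simp at h
    · exact h.1
  refine criterion.{0, v} r ℚ σ (m : ℚ) _ (by exact_mod_cast hm0)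
    (isIntegral_algebraMap (R := ℤ) (A := ℚ) (x := m))
    (fun k i => isIntegral_algebraMap (R := ℤ) (A := ℚ) (x := b k i))
    (fun k i j hij => hb k (by exact_mod_cast hij)) fun ξ η hξ hη => ?_
  simp only [map_intCast] at hξ hη ⊢
  rcases h with ⟨i, j, i', j', h⟩ | ⟨-, h⟩
  · exact Pool.Agent.N686.DI.one_lt_of_int_diam (b 0) (hb 0) (b 1) (hb 1) i j i' j' h hξ hη
  · exact Pool.Agent.N686.DI.one_lt_of_int_five (h 0) (h 1) (b 0) (hb 0) (b 1) (hb 1) hm0 hξ hη

end Pool.Agent.Results.MP_a09a03_nt.CriticalProduct
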