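import Pool.Agent.N65.TE.Reg
set_option autoImplicit false

/-!
Beilinson's conjecture on regulators in weight `dim X + 1`, for `i = dim X`: the fibre products of two
fibrations `W(z) = F(x)` and `V(y) = G(x)` over the `x`-line, with arbitrary monic polynomials `F`
and `G` with integral coefficients over a number field: unramified classes in Milnor K-theory, with
regulators asymptotic to a nonzero multiple of `log |c|` for `G + c`, `c → ∞`.
-/

namespace Pool.Agent.Results.MP_a09a03_nt.FibreProducts

open Pool.Agent.N65.TL

open Pool.Agent.N65.TE

/-- Let `K` be a number field, and let `W` and `V` be Laurent polynomials over `K` in `z_0, ..., z_s`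
and in `y_0, ..., y_t`, `s, t ≥ 0`, whose coefficients are algebraic integers and whose Newton
polytopes have the origin in the interior, such that for all nonzero functionals `a`

* the face polynomial `face W a` (the sum of the terms `w_m z^m` of `W` with the largest value of
  `a · m`) is of simplex type: `∑_i ε_i z^{m_i}` with roots of unity `ε_i` and affinely independent
  exponents `m_i` (`SimplexFaces`), and
* the face polynomial `face V a` is a product of polynomials of simplex type (`ProductFaces`)

(there is no condition on the coefficients in the interior of the Newton polytopes besides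
integrality; examples are `z + 1/z`, `z_0 + z_1 + 1/(z_0 z_1) + k`,
`z_0 + 1/z_0 + ... + z_s + 1/z_s`, and for `V` also `(y_0 + 1/y_0) (y_1 + 1/y_1)`). Let `F` and `G` be arbitrary monic polynomials in `x` of positive
degree, whose coefficients are algebraic integers of `K`. Let `X(F, G)` be the fibre product
`W(z) = F(x)`, `V(y) = G(x)`, `z_i ≠ 0`, `y_j ≠ 0`, of dimension `s + t + 1`.

The symbol `{z_0, ..., z_s, y_0, ..., y_t}` in `K_{s+t+2}^M ⊗ ℚ` of the coordinate ring of `X(F, G)`
has an unramified image in the Milnor K-theory of all fields `L` with a homomorphism from the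
coordinate ring to `L` (for example the function fields of the components of `X(F, G)`).

For every embedding `σ` of `K` there is a real number `q ≠ 0` such that for all `ε > 0` and all
`c ∈ K` with `|σ c| ≥ C(ε)` there is a torus `Γ` of dimension `s + t + 1` in the complex points (over
`σ`) of `X(F, G + c)`, such that the quotient of the regulator of the symbol on `Γ` and of
`log |σ c|` differs from `q` by at most `ε`; in particular the regulator does not vanish for large
`|σ c|`. -/
theorem result.{u, v} (s t : ℕ) (K : Type u) [Field K] [NumberField K] (W : LP K (s + 1))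
    (V : LP K (t + 1)) (hW : SimplexFaces W) (hV : ProductFaces V) (F G : Polynomial K)
    (hF : MonicInt F) (hG : MonicInt G) :
    Unram.{u, v} W V F G ∧
    ∀ σ : K →+* ℂ, ∃ q : ℝ, q ≠ 0 ∧ ∀ ε : ℝ, 0 < ε → ∃ C : ℝ, ∀ c : K, C ≤ ‖σ c‖ →
      HasReg W V F (G + Polynomial.C c) σ (Real.log ‖σ c‖) q ε :=
  ⟨fun _ _ f => unram hW hV hF hG f,
    fun σ => exists_reg hW.interior hV.interior hF.monic hF.pos σ⟩

end Pool.Agent.Results.MP_a09a03_nt.FibreProducts
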