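import Pool.Agent.N65.TL.Fam
set_option autoImplicit false

/-!
Beilinson's conjecture on regulators in weight `dim X + 1`, for `i = dim X`: on the fibrations
`W(z) = λ g(x) ∏_e L_e(x) ^ (w_e + 1)`, where `W` is an arbitrary Laurent polynomial in
`z_0, ..., z_s` which divides a product of Laurent polynomials of simplex type and has the origin in
the interior of its Newton polytope, and the `L_e` are arbitrary different affine forms in
`x_0, ..., x_d` with integral coefficients (no condition on the minors): unramified classes
in Milnor K-theory with linearly independent regulators, one for each basis of the arrangement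
without broken circuits and of internal activity zero, for all large integers `λ` divisible by a
power of the product of the nonzero maximal minors.
-/

namespace Pool.Agent.Results.MP_a09a03_nt.LaurentFibrations

open Pool.Agent.N65.TL

/-- Let `s, d ≥ 0`, let `σ` be a complex embedding of the number field `K`, and let
`W = ∑_m w_m z^m` be a Laurent polynomial in `z_0, ..., z_s` over `K` such that

* the origin is an interior point of the Newton polytope (`Interior`: for every functional
  `a ∈ ℤ^{s+1}`, `a ≠ 0`, there is a monomial `z^m` of `W` with `a · m > 0`), and
* `W Q = ∏_j G_j` for a Laurent polynomial `Q ≠ 0` with integral coefficients and polynomials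
  `G_j = ∑_i ε_{j,i} z^{m_{j,i}}` of simplex type (`Tame`): the `ε_{j,i}` are roots of unity, and
  for every `j` the exponents `m_{j,i}` are affinely independent.

Let `L_e = ∑_j c_{e,j} x_j - a_e`, `0 ≤ e ≤ m`, be affine forms in `x_0, ..., x_d` with integral
coefficients in `K`, such that no form is a multiple of another one (there is no condition on the
determinants). Let `w_e ≥ 0` be integers and let `g` be a polynomial in `x_0, ..., x_d` with integral
coefficients which does not vanish at the vertices of the arrangement (the common zeros of `d + 1`
forms with nonzero determinant). Let `Δ` be the product of all nonzero determinants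
`det (c_{T_i,j})` of `d + 1` of the forms, and `B = (2 m + 3) (deg g + ∑_e (w_e + 1)) + 1`.
There is a constant `C` such that for all algebraic integers `μ` of `K` and `λ = μ Δ ^ B` with
`|σ λ| ≥ C` the following holds for the coordinate ring `A` of the open part `Φ ≠ 0` of the
hypersurface `W(z) = Φ(x)`, `Φ = λ g ∏_e L_e ^ (w_e + 1)`, `z_i ≠ 0`, of dimension `s + d + 1`.
(If all determinants are zero or units, these are all large algebraic integers `λ`.)

For all `T = (T_0, ..., T_d)` with nonzero determinant the symbol
`{z_0, ..., z_s, u_0, ..., u_d}`, `u_i = κ_i L_{T_i} / L_{h_i}`, where `h_i` is the largest index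
such that the determinant of `T` with `T_i` replaced by `h_i` is not zero and `κ_i` is the quotient
of this determinant and of the one of `T`, has unramified images in the Milnor K-theory of all fields
`L` with a homomorphism `A → L`.

There are tori `Γ_T` of dimension `s + d + 1` in the complex points (over `σ`) of the open part, such
that the determinant of the regulators of the symbols of the `T'` on the tori `Γ_T` does not vanish;
here `T` and `T'` run through the set `Ix` of all `T_0 < ... < T_d` with nonzero determinant such
that every `T_i` can be replaced by a later form (with nonzero determinant), and every other form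
which vanishes at the vertex of `T` can replace a later form `T_i`. -/
theorem result.{u, v} (s d m : ℕ) (K : Type u) [Field K] [NumberField K] (σ : K →+* ℂ)
    (F : Fam K s d m) (hF : F.Admissible) :
    ∃ C : ℝ, ∀ mu lam : K, IsIntegral ℤ mu → lam = mu * F.Del ^ F.Bex → C ≤ ‖σ lam‖ →
      Fam.Unram.{u, v} F lam ∧ F.Indep lam σ := by
  obtain ⟨C, h⟩ := Fam.exists_indep σ hF
  exact ⟨C, fun mu lam hmu hlam hl => ⟨Fam.unram hF hmu hlam, h lam hl⟩⟩

end Pool.Agent.Results.MP_a09a03_nt.LaurentFibrations
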